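import Pool.Agent.MP_ed9623_an.H77.SpecW

/-! Products in Sobolev spaces on a box. -/

open MeasureTheory Filter Topology Set
open scoped ContDiff

namespace Pool.Agent.MP_ed9623_an.H77

open H64

namespace Prk

/-- The product of `H^i` and `H^j` functions is in `H^k`. -/
def PK (O : Set P) (k i j : ℕ) (C : ℝ) : Prop := ∀ (f g : P → ℝ) (R R' : ℝ), M2 f →
  M2 g → 0 ≤ R → 0 ≤ R' → HB O i f R → HB O j g R' →
  M2 (O.indicator fun p => f p * g p) ∧ HB O k (O.indicator fun p => f p * g p) (C * (R * R'))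

variable {O : Set P} {k i j i' j' : ℕ} {C C' C'' : ℝ}

theorem PK.mono (h : PK O k i j C) (hi : i ≤ i') (hj : j ≤ j') : PK O k i' j' C :=
  fun f g R R' hf hg r r' a b =>
    h f g R R' hf hg r r' (a.mono subset_rfl hi le_rfl) (b.mono subset_rfl hj le_rfl)

theorem PK.symm (h : PK O k i j C) : PK O k j i C := fun f g R R' hf hg r r' a b => by
  simpa only [mul_comm (g _), mul_comm R'] using h g f R' R hg hf r' r b a

theorem ind_ae (O : Set P) (f : P → ℝ) : ∀ᵐ p, p ∈ O → f p = O.indicator f p :=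
  Eventually.of_forall fun _ hp => (indicator_of_mem hp f).symm

theorem step (hH : HbS) (hP : PrdS) (hO : IsOpen O) (h1 : PK O k i (j + 1) C)
    (h2 : PK O k (i + 1) j C') (h3 : PK O 0 (i + 1) (j + 1) C'') (c : 0 ≤ C) (c' : 0 ≤ C')
    (c'' : 0 ≤ C'') : PK O (k + 1) (i + 1) (j + 1) (C + C' + C'') := by
  intro f g R R' hf hg r r' a b
  obtain ⟨f', hf'⟩ := hH.1 O i f R hf r a
  obtain ⟨g', hg'⟩ := hH.1 O j g R' hg r' b
  have rr := mul_nonneg r r'
  obtain ⟨m3, b3⟩ := h3 f g R R' hf hg r r' a b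
  refine ⟨m3, HB.succ (g := fun l p => O.indicator (fun p => f' l p * g p) p +
    O.indicator (fun p => f p * g' l p) p) (b3.mono subset_rfl le_rfl ?_) (fun l => ?_) fun l => ?_⟩
  · have := mul_nonneg (add_nonneg c c') rr
    linarith
  · refine (hP.1 O _ f (f' l) g (g' l) hO hf (hf' l).1 hg (hg' l).1 (hf' l).2.2.1
      (hg' l).2.2.1).congr (ind_ae _ _) (Eventually.of_forall fun p hp => ?_)
    rw [indicator_of_mem hp, indicator_of_mem hp]
  · obtain ⟨m1, b1⟩ := h1 (f' l) g R R' (hf' l).1 hg r r' (hf' l).2.2.2 b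
    obtain ⟨m2, b2⟩ := h2 f (g' l) R R' hf (hg' l).1 r r' a (hg' l).2.2.2
    refine (b1.add b2 m1 m2).mono subset_rfl le_rfl ?_
    have := mul_nonneg c'' rr
    linarith

theorem ind_mul (O : Set P) (f g : P → ℝ) :
    (O.indicator fun p => f p * g p) = fun p => O.indicator f p * O.indicator g p := by
  funext p
  by_cases h : p ∈ O <;> simp [h]

theorem base (hH : HbS) (hM : MixS) (a b c d : ℝ) :
    ∃ C, 0 ≤ C ∧ PK (Bx a b c d) 0 2 0 C ∧ PK (Bx a b c d) 0 1 1 C := by
  obtain ⟨C, c0, -, h2, h3⟩ := hM a b c d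
  have hO := isOpen_Bx a b c d
  have hm := hO.measurableSet
  refine ⟨4 * C, by positivity, fun f g R R' hf hg r r' x y => ?_,
    fun f g R R' hf hg r r' x y => ?_⟩
  · obtain ⟨f', hf'⟩ := hH.1 _ 1 f R hf r x
    obtain ⟨f'', hf''⟩ := hH.1 _ 0 (f' 1) R (hf' 1).1 r (hf' 1).2.2.2
    have n0 := hH.2.1 _ f R hO hf r (x.mono subset_rfl (by omega) le_rfl)
    have n1 := hH.2.1 _ g R' hO hg r' y
    have hb := h3 _ (f' 0) (f' 1) (f'' 0) (hf.ind hm) (hf' 0).1 (hf' 1).1 (hf'' 0).1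
      ((hf' 0).2.2.1.congr (ind_ae _ _) (Eventually.of_forall fun _ _ => rfl))
      ((hf' 1).2.2.1.congr (ind_ae _ _) (Eventually.of_forall fun _ _ => rfl)) (hf'' 0).2.2.1
    have hb' : ∀ᵐ p, |(Bx a b c d).indicator f p| ≤ 4 * C * R := hb.mono fun p hp => by
      by_cases h : p ∈ Bx a b c d
      · refine (hp h).trans ?_
        have := mul_le_mul_of_nonneg_left (add_le_add (add_le_add (add_le_add n0 (hf' 0).2.1)
          (hf' 1).2.1) (hf'' 0).2.1) c0
        linarith
      · rw [indicator_of_notMem h, abs_zero]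
        positivity
    rw [ind_mul]
    have m := (hg.ind hm).bmul (hf.ind hm).meas hb'
    refine ⟨m, HB.zero m ((nm_bmul (hg.ind hm) (by positivity) hb').trans ?_)⟩
    rw [← mul_assoc (4 * C)]
    exact mul_le_mul_of_nonneg_left n1 (by positivity)
  · obtain ⟨f', hf'⟩ := hH.1 _ 0 f R hf r x
    obtain ⟨g', hg'⟩ := hH.1 _ 0 g R' hg r' y
    have n0 := hH.2.1 _ f R hO hf r (x.mono subset_rfl (by omega) le_rfl)
    have n1 := hH.2.1 _ g R' hO hg r' (y.mono subset_rfl (by omega) le_rfl)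
    have hb := h2 _ (g' 0) _ (f' 1) (hg.ind hm) (hg' 0).1 (hf.ind hm) (hf' 1).1
      ((hg' 0).2.2.1.congr (ind_ae _ _) (Eventually.of_forall fun _ _ => rfl))
      ((hf' 1).2.2.1.congr (ind_ae _ _) (Eventually.of_forall fun _ _ => rfl))
    rw [← ind_mul, indicator_indicator, inter_self] at hb
    refine ⟨hb.1, HB.zero hb.1 (hb.2.trans ?_)⟩
    have := mul_le_mul (add_le_add n1 (hg' 0).2.1) (add_le_add n0 (hf' 1).2.1)
      (add_nonneg (nm_nonneg _) (nm_nonneg _)) (by positivity)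
    have := mul_le_mul_of_nonneg_left this c0
    linarith

end Prk

open Prk

theorem rowPrk : OfPrk := by
  intro hH hP hM a b c d k
  obtain ⟨C₀, c0, h0, h1⟩ := base hH hM a b c d
  have hO := isOpen_Bx a b c d
  show ∃ C, 0 ≤ C ∧ PK (Bx a b c d) k (max k 2) k C
  induction k with
  | zero => exact ⟨C₀, c0, h0⟩
  | succ k ih =>
    obtain ⟨C, c, h⟩ := ih
    rcases k with _ | k
    · exact ⟨_, by positivity, step hH hP hO (i := 1) (j := 0) h1 h0 (h0.mono le_rfl (by omega))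
        c0 c0 c0⟩
    · rw [max_eq_left (by omega)]
      exact ⟨_, by positivity, step hH hP hO (h.symm.mono le_rfl (by omega))
        (h.mono (by omega) le_rfl) (h0.mono (by omega) (by omega)) c c c0⟩

end Pool.Agent.MP_ed9623_an.H77
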