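import Pool.Agent.MP_ed9623_an.H77.SpecX
import Pool.Agent.MP_ed9623_an.H64.Circ4

/-! Geometry of a circular outer boundary. -/

open MeasureTheory Filter Topology Set
open scoped ContDiff

namespace Pool.Agent.MP_ed9623_an.H77

open H64

namespace Near

/-- Polar coordinates around `c`. -/
noncomputable def pol (c : P) (z : ℝ × ℝ) : P := (c.1 + z.1 * Real.cos z.2, c.2 + z.1 * Real.sin z.2)

theorem pol_cont (c : P) : Continuous (pol c) := by unfold pol; fun_prop

theorem qc_pol (c : P) (z : ℝ × ℝ) : qc c (pol c z) = z.1 ^ 2 := by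
  simp only [qc, pol]
  linear_combination z.1 ^ 2 * Real.cos_sq_add_sin_sq z.2

theorem exists_pol (c x : P) : ∃ z : ℝ × ℝ, 0 ≤ z.1 ∧ pol c z = x := by
  let w : ℂ := ⟨x.1 - c.1, x.2 - c.2⟩
  refine ⟨(‖w‖, Complex.arg w), norm_nonneg _, Prod.ext ?_ ?_⟩
  · simp only [pol]
    rw [Complex.norm_mul_cos_arg]
    simp [w]
  · simp only [pol]
    rw [Complex.norm_mul_sin_arg]
    simp [w]

theorem circle (c : P) (R : ℝ) : IsPreconnected {x | qc c x = R ^ 2} := by
  have e : {x | qc c x = R ^ 2} = pol c '' ({|R|} ×ˢ univ) := by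
    ext x
    constructor
    · intro hx
      obtain ⟨z, h0, rfl⟩ := exists_pol c x
      refine ⟨z, ⟨?_, trivial⟩, rfl⟩
      have h1 : z.1 ^ 2 = R ^ 2 := by rw [← qc_pol c z]; exact hx
      have h2 := sq_eq_sq_iff_abs_eq_abs z.1 R |>.1 h1
      rw [abs_of_nonneg h0] at h2
      exact h2
    · rintro ⟨z, ⟨h1, -⟩, rfl⟩
      show qc c (pol c z) = R ^ 2
      rw [qc_pol, show z.1 = |R| from h1, sq_abs]
  rw [e]
  exact (isPreconnected_singleton.prod isPreconnected_univ).image _ (pol_cont c).continuousOn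

theorem outer (c : P) (r : ℝ) : IsPreconnected {x | r ^ 2 < qc c x} := by
  have e : {x | r ^ 2 < qc c x} = pol c '' (Ioi |r| ×ˢ univ) := by
    ext x
    constructor
    · intro hx
      obtain ⟨z, h0, rfl⟩ := exists_pol c x
      refine ⟨z, ⟨?_, trivial⟩, rfl⟩
      have h1 : r ^ 2 < z.1 ^ 2 := by rw [← qc_pol c z]; exact hx
      have h2 := sq_lt_sq.1 h1
      rw [abs_of_nonneg h0] at h2
      exact h2
    · rintro ⟨z, ⟨h1, -⟩, rfl⟩
      show r ^ 2 < qc c (pol c z)
      rw [qc_pol]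
      have h2 : |r| < z.1 := h1
      exact sq_lt_sq.2 (h2.trans_le (le_abs_self _))
  rw [e]
  exact (isPreconnected_Ioi.prod isPreconnected_univ).image _ (pol_cont c).continuousOn

theorem qq_eq (c x : P) : qq c (0, x) = qc c x := by
  simp only [qq, H64.XX, H64.YY, qc]; ring

theorem grad_pos {ρ : P → ℝ} {x : P} (hd : fderiv ℝ ρ x ≠ 0) :
    0 < pd (1, 0) ρ x ^ 2 + pd (0, 1) ρ x ^ 2 := by
  by_contra h
  have h1 : pd (1, 0) ρ x = 0 := by nlinarith [sq_nonneg (pd (1, 0) ρ x), sq_nonneg (pd (0, 1) ρ x)]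
  have h2 : pd (0, 1) ρ x = 0 := by nlinarith [sq_nonneg (pd (1, 0) ρ x), sq_nonneg (pd (0, 1) ρ x)]
  apply hd
  refine ContinuousLinearMap.ext fun e => ?_
  have e1 : e = e.1 • ((1, 0) : P) + e.2 • ((0, 1) : P) := by
    refine Prod.ext ?_ ?_ <;> simp
  unfold pd at h1 h2
  rw [e1, map_add, map_smul, map_smul, h1, h2]
  simp

end Near

theorem rowNear : OfNear := by
  refine ⟨Near.circle, Near.outer, fun ρ c R hρ hd R0 hi hb => ⟨fun x hx => ?_, fun x hx => ?_⟩⟩
  · exact closure_minimal (fun y hy => (hi y hy).le)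
      (isClosed_le (sm_qc c).continuous continuous_const) (mem_closure_neg hx (hd x hx))
  · have hk : ∀ k : ℕ, ContDiff ℝ k ρ := fun k => hρ.of_le (by exact_mod_cast le_top)
    have hD : Dom ρ := ⟨hk 1, hd, (isCompact_disc c R).isBounded.subset fun y hy => (hi y hy).le⟩
    obtain ⟨n1, n2⟩ := near_circ (c := c) (R := R) hk hD R0
      (fun y hy => by rw [Near.qq_eq]; exact hi y hy) (fun y hy => hb y (by rw [← Near.qq_eq]; exact hy))
      (x₀ := x) (by rw [Near.qq_eq]; exact hx)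
    refine ⟨?_, n2.mono fun y hy k => hy (by rw [Near.qq_eq]; exact k)⟩
    have g := Real.sqrt_pos.2 (Near.grad_pos (hd x (hb x hx)))
    exact div_pos n1 (pow_pos g 3)

end Pool.Agent.MP_ed9623_an.H77
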